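import Mathlib

set_option autoImplicit false

open MeasureTheory Set Filter
open scoped ENNReal NNReal Topology

namespace Pool.Agent.TH340.LI

/-- The one-variable integral of the truncation argument. -/
lemma inner_int {β γ α D : ℝ} (hβ : 0 < β) (h1 : β < γ) (h2 : γ < α) (hD : 0 ≤ D) :
    ∫⁻ t in Ioi (0:ℝ), (if t < D then ENNReal.ofReal ((D/t)^β) else ENNReal.ofReal ((D/t)^α)) *
      ENNReal.ofReal (t^(γ-1)) ≤ ENNReal.ofReal ((1/(γ-β) + 1/(α-γ)) * D^γ) := by
  have hγβ : 0 < γ - β := by linarith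
  have hαγ : 0 < α - γ := by linarith
  rcases hD.eq_or_lt with hD0 | hD0
  · subst hD0
    have : ∫⁻ t in Ioi (0:ℝ), (if t < 0 then ENNReal.ofReal ((0/t)^β) else
        ENNReal.ofReal ((0/t)^α)) * ENNReal.ofReal (t^(γ-1)) = ∫⁻ t in Ioi (0:ℝ), 0 := by
      refine setLIntegral_congr_fun measurableSet_Ioi fun t ht => ?_
      have ht' : ¬ t < 0 := not_lt.2 (le_of_lt ht)
      simp only [if_neg ht', zero_div, Real.zero_rpow (by linarith : α ≠ 0), ENNReal.ofReal_zero,
        zero_mul]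
    rw [this]
    simp
  · have hsplit : Ioi (0:ℝ) = Ioc 0 D ∪ Ioi D := (Ioc_union_Ioi_eq_Ioi hD).symm
    have hA : ∫⁻ t in Ioc 0 D, (if t < D then ENNReal.ofReal ((D/t)^β) else
        ENNReal.ofReal ((D/t)^α)) * ENNReal.ofReal (t^(γ-1)) =
        ENNReal.ofReal (1/(γ-β) * D^γ) := by
      have e1 : ∫⁻ t in Ioc 0 D, (if t < D then ENNReal.ofReal ((D/t)^β) else
          ENNReal.ofReal ((D/t)^α)) * ENNReal.ofReal (t^(γ-1)) =
          ∫⁻ t in Ioc 0 D, ENNReal.ofReal (D^β * t^(γ-β-1)) := by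
        refine setLIntegral_congr_fun measurableSet_Ioc fun t ht => ?_
        have ht0 : 0 < t := ht.1
        have h3 : (if t < D then ENNReal.ofReal ((D/t)^β) else ENNReal.ofReal ((D/t)^α)) =
            ENNReal.ofReal ((D/t)^β) := by
          split_ifs with h
          · rfl
          · have : t = D := le_antisymm ht.2 (not_lt.1 h)
            rw [this, div_self (ne_of_gt hD0), Real.one_rpow, Real.one_rpow]
        simp only [h3]
        rw [← ENNReal.ofReal_mul (by positivity)]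
        congr 1
        rw [Real.div_rpow hD ht0.le, div_mul_eq_mul_div, mul_div_assoc, ← Real.rpow_sub ht0]
        congr 2
        ring
      rw [e1, ← ofReal_integral_eq_lintegral_ofReal]
      · congr 1
        rw [← intervalIntegral.integral_of_le hD, intervalIntegral.integral_const_mul,
          integral_rpow (Or.inl (by linarith)), Real.zero_rpow (by linarith), sub_zero,
          sub_add_cancel, mul_div_assoc', ← Real.rpow_add hD0]
        rw [show β + (γ - β) = γ by ring]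
        ring
      · have := intervalIntegral.intervalIntegrable_rpow' (a := 0) (b := D)
          (show (-1:ℝ) < γ - β - 1 by linarith)
        rw [intervalIntegrable_iff_integrableOn_Ioc_of_le hD] at this
        exact this.const_mul _
      · filter_upwards [self_mem_ae_restrict measurableSet_Ioc] with t ht
        have := ht.1
        simp only [Pi.zero_apply]
        positivity
    have hB : ∫⁻ t in Ioi D, (if t < D then ENNReal.ofReal ((D/t)^β) else
        ENNReal.ofReal ((D/t)^α)) * ENNReal.ofReal (t^(γ-1)) =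
        ENNReal.ofReal (1/(α-γ) * D^γ) := by
      have e1 : ∫⁻ t in Ioi D, (if t < D then ENNReal.ofReal ((D/t)^β) else
          ENNReal.ofReal ((D/t)^α)) * ENNReal.ofReal (t^(γ-1)) =
          ∫⁻ t in Ioi D, ENNReal.ofReal (D^α * t^(γ-α-1)) := by
        refine setLIntegral_congr_fun measurableSet_Ioi fun t ht => ?_
        have ht' : D < t := ht
        have ht0 : 0 < t := hD0.trans ht'
        simp only [if_neg (not_lt.2 ht'.le)]
        rw [← ENNReal.ofReal_mul (by positivity)]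
        congr 1
        rw [Real.div_rpow hD ht0.le, div_mul_eq_mul_div, mul_div_assoc, ← Real.rpow_sub ht0]
        congr 2
        ring
      rw [e1, ← ofReal_integral_eq_lintegral_ofReal]
      · congr 1
        rw [integral_const_mul, integral_Ioi_rpow_of_lt (by linarith) hD0, sub_add_cancel]
        have h5 : D ^ α * (-D ^ (γ - α) / (γ - α)) = D ^ α * D ^ (γ - α) / (α - γ) := by
          have : γ - α = -(α - γ) := by ring
          rw [this, div_neg, neg_div, neg_neg, mul_div_assoc]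
        rw [h5, ← Real.rpow_add hD0, show α + (γ - α) = γ by ring]
        ring
      · exact (integrableOn_Ioi_rpow_of_lt (by linarith) hD0).const_mul _
      · filter_upwards [self_mem_ae_restrict measurableSet_Ioi] with t ht
        have ht' : D < t := ht
        have ht0 : 0 < t := hD0.trans ht'
        simp only [Pi.zero_apply]
        positivity
    rw [hsplit]
    refine (lintegral_union_le _ _ _).trans ?_
    rw [hA, hB, ← ENNReal.ofReal_add (by positivity) (by positivity)]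
    apply ENNReal.ofReal_le_ofReal
    rw [add_mul]

/-- The truncation argument of Marcinkiewicz, for a single pair of functions. -/
theorem key {X : Type*} [MeasurableSpace X] {μ : Measure X} [SFinite μ]
    {β γ α M : ℝ} (hβ : 0 < β) (h1 : β < γ) (h2 : γ < α) (hM : 0 < M) {W d : X → ℂ}
    (hW : AEStronglyMeasurable W μ) (hd : Measurable d)
    (H : ∀ s : ℝ, 0 < s → ∃ P Q : X → ℂ, AEStronglyMeasurable P μ ∧ AEStronglyMeasurable Q μ ∧
      (∀ᵐ x ∂μ, ‖W x‖ ≤ ‖P x‖ + ‖Q x‖) ∧
      ∫⁻ x, ‖P x‖ₑ ^ β ∂μ ≤ ENNReal.ofReal M ^ β * ∫⁻ x in {x | s < ‖d x‖}, ‖d x‖ₑ ^ β ∂μ ∧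
      ∫⁻ x, ‖Q x‖ₑ ^ α ∂μ ≤ ENNReal.ofReal M ^ α * ∫⁻ x in {x | ‖d x‖ ≤ s}, ‖d x‖ₑ ^ α ∂μ) :
    ∫⁻ x, ‖W x‖ₑ ^ γ ∂μ ≤ ENNReal.ofReal (γ * (1/(γ-β) + 1/(α-γ))) *
      (ENNReal.ofReal (2 * M) ^ γ * ∫⁻ x, ‖d x‖ₑ ^ γ ∂μ) := by
  have hγ : 0 < γ := hβ.trans h1
  have hα : 0 < α := hγ.trans h2
  have hγβ : 0 < γ - β := by linarith
  have hαγ : 0 < α - γ := by linarith
  -- the kernel
  set Φ : ℝ → X → ℝ≥0∞ := fun t x =>
    if t < 2 * M * ‖d x‖ then ENNReal.ofReal ((2 * M * ‖d x‖ / t) ^ β)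
    else ENNReal.ofReal ((2 * M * ‖d x‖ / t) ^ α) with hΦ
  have hdist : ∀ t : ℝ, 0 < t → μ {x | t < ‖W x‖} ≤ ∫⁻ x, Φ t x ∂μ := by
    intro t ht
    obtain ⟨P, Q, hP, hQ, hWPQ, hPi, hQi⟩ := H (t / (2 * M)) (by positivity)
    have hset1 : MeasurableSet {x | t / (2 * M) < ‖d x‖} :=
      measurableSet_lt measurable_const hd.norm
    have hset2 : MeasurableSet {x | ‖d x‖ ≤ t / (2 * M)} :=
      measurableSet_le hd.norm measurable_const
    have hsub : μ {x | t < ‖W x‖} ≤ μ {x | ENNReal.ofReal (t/2) ^ β ≤ ‖P x‖ₑ ^ β} +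
        μ {x | ENNReal.ofReal (t/2) ^ α ≤ ‖Q x‖ₑ ^ α} := by
      refine le_trans (measure_mono_ae ?_) (measure_union_le _ _)
      filter_upwards [hWPQ] with x hx
      intro hx1
      have hx1' : t < ‖W x‖ := hx1
      by_cases hc : t / 2 ≤ ‖P x‖
      · left
        show ENNReal.ofReal (t/2) ^ β ≤ ‖P x‖ₑ ^ β
        rw [← ofReal_norm]
        gcongr
      · right
        show ENNReal.ofReal (t/2) ^ α ≤ ‖Q x‖ₑ ^ α
        rw [← ofReal_norm]
        have : t / 2 ≤ ‖Q x‖ := by push Not at hc; linarith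
        gcongr
    have hcheb : ∀ (R : X → ℂ), AEStronglyMeasurable R μ → ∀ p : ℝ, 0 < p →
        μ {x | ENNReal.ofReal (t/2) ^ p ≤ ‖R x‖ₑ ^ p} ≤
          (∫⁻ x, ‖R x‖ₑ ^ p ∂μ) / ENNReal.ofReal (t/2) ^ p := by
      intro R hR p hp
      refine meas_ge_le_lintegral_div (hR.enorm.pow_const p) ?_ ?_
      · have : 0 < ENNReal.ofReal (t/2) := by rw [ENNReal.ofReal_pos]; positivity
        exact (ENNReal.rpow_pos this ENNReal.ofReal_ne_top).ne'
      · exact ENNReal.rpow_ne_top_of_nonneg hp.le ENNReal.ofReal_ne_top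
    have hP2 := (hcheb P hP β hβ).trans (ENNReal.div_le_div_right hPi _)
    have hQ2 := (hcheb Q hQ α hα).trans (ENNReal.div_le_div_right hQi _)
    refine (hsub.trans (add_le_add hP2 hQ2)).trans ?_
    have hcompl : {x | ‖d x‖ ≤ t / (2 * M)} = {x | t / (2 * M) < ‖d x‖}ᶜ := by
      ext x; simp
    have hsum : ∫⁻ x, Φ t x ∂μ = ∫⁻ x in {x | t / (2 * M) < ‖d x‖}, Φ t x ∂μ +
        ∫⁻ x in {x | ‖d x‖ ≤ t / (2 * M)}, Φ t x ∂μ := by
      rw [hcompl, lintegral_add_compl _ hset1]
    rw [hsum]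
    have hconst : ∀ (p : ℝ), 0 < p → ∀ (S : Set X), MeasurableSet S →
        (ENNReal.ofReal M ^ p * ∫⁻ x in S, ‖d x‖ₑ ^ p ∂μ) / ENNReal.ofReal (t/2) ^ p =
          ∫⁻ x in S, ENNReal.ofReal ((2 * M * ‖d x‖ / t) ^ p) ∂μ := by
      intro p hp S hS
      have hpt : ∀ x, ENNReal.ofReal ((2 * M * ‖d x‖ / t) ^ p) =
          (ENNReal.ofReal M ^ p * (ENNReal.ofReal (t/2) ^ p)⁻¹) * ‖d x‖ₑ ^ p := by
        intro x
        rw [← ofReal_norm, ENNReal.ofReal_rpow_of_nonneg hM.le hp.le,
          ENNReal.ofReal_rpow_of_nonneg (by positivity) hp.le,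
          ENNReal.ofReal_rpow_of_nonneg (norm_nonneg _) hp.le,
          ← ENNReal.ofReal_inv_of_pos (by positivity), ← ENNReal.ofReal_mul (by positivity),
          ← ENNReal.ofReal_mul (by positivity)]
        congr 1
        rw [← Real.inv_rpow (by positivity), ← Real.mul_rpow (by positivity) (by positivity),
          ← Real.mul_rpow (by positivity) (by positivity)]
        congr 1
        field_simp
      simp_rw [hpt]
      rw [lintegral_const_mul'' _ ((hd.enorm.pow_const p).aemeasurable.restrict)]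
      rw [ENNReal.div_eq_inv_mul]
      ring
    rw [hconst β hβ _ hset1, hconst α hα _ hset2]
    refine add_le_add (le_of_eq ?_) (le_of_eq ?_)
    · refine setLIntegral_congr_fun hset1 fun x hx => ?_
      have hx' : t / (2 * M) < ‖d x‖ := hx
      rw [div_lt_iff₀ (by positivity)] at hx'
      have hx2 : t < 2 * M * ‖d x‖ := by linarith
      simp only [hΦ, if_pos hx2]
    · refine setLIntegral_congr_fun hset2 fun x hx => ?_
      have hx' : ‖d x‖ ≤ t / (2 * M) := hx
      rw [le_div_iff₀ (by positivity)] at hx'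
      have hx2 : ¬ t < 2 * M * ‖d x‖ := by linarith
      simp only [hΦ, if_neg hx2]
  -- layer cake
  have hlc := lintegral_rpow_eq_lintegral_meas_lt_mul μ (f := fun x => ‖W x‖)
    (Eventually.of_forall fun x => norm_nonneg _) hW.norm.aemeasurable hγ
  have hleft : ∫⁻ x, ‖W x‖ₑ ^ γ ∂μ = ∫⁻ x, ENNReal.ofReal (‖W x‖ ^ γ) ∂μ := by
    refine lintegral_congr fun x => ?_
    rw [← ofReal_norm, ENNReal.ofReal_rpow_of_nonneg (norm_nonneg _) hγ.le]
  rw [hleft, hlc]
  have hΦm : Measurable (Function.uncurry Φ) := by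
    have m1 : Measurable (fun p : ℝ × X => 2 * M * ‖d p.2‖) :=
      (hd.norm.comp measurable_snd).const_mul _
    have m2 : Measurable (fun p : ℝ × X => 2 * M * ‖d p.2‖ / p.1) := m1.div measurable_fst
    refine Measurable.ite (measurableSet_lt measurable_fst m1) ?_ ?_
    · exact (m2.pow_const β).ennreal_ofReal
    · exact (m2.pow_const α).ennreal_ofReal
  calc ENNReal.ofReal γ * ∫⁻ t in Ioi (0:ℝ), μ {a | t < ‖W a‖} * ENNReal.ofReal (t ^ (γ - 1))
      ≤ ENNReal.ofReal γ * ∫⁻ t in Ioi (0:ℝ), ∫⁻ x, Φ t x * ENNReal.ofReal (t ^ (γ - 1)) ∂μ := by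
        refine mul_le_mul' le_rfl (setLIntegral_mono' measurableSet_Ioi fun t ht => ?_)
        rw [lintegral_mul_const' _ _ ENNReal.ofReal_ne_top]
        exact mul_le_mul' (hdist t ht) le_rfl
    _ = ENNReal.ofReal γ *
        ∫⁻ x, (∫⁻ t in Ioi (0:ℝ), Φ t x * ENNReal.ofReal (t ^ (γ - 1))) ∂μ := by
        rw [lintegral_lintegral_swap]
        apply Measurable.aemeasurable
        exact hΦm.mul ((measurable_fst.pow_const _).ennreal_ofReal)
    _ ≤ ENNReal.ofReal γ * ∫⁻ x, ENNReal.ofReal ((1/(γ-β) + 1/(α-γ)) * (2 * M * ‖d x‖)^γ) ∂μ := by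
        exact mul_le_mul' le_rfl (lintegral_mono fun x => inner_int hβ h1 h2 (by positivity))
    _ = _ := by
        have hpt : ∀ x, ENNReal.ofReal ((1/(γ-β) + 1/(α-γ)) * (2 * M * ‖d x‖)^γ) =
            (ENNReal.ofReal (1/(γ-β) + 1/(α-γ)) * ENNReal.ofReal (2 * M) ^ γ) * ‖d x‖ₑ ^ γ := by
          intro x
          rw [ENNReal.ofReal_mul (by positivity), Real.mul_rpow (by positivity) (norm_nonneg _),
            ENNReal.ofReal_mul (by positivity), ← ofReal_norm,
            ENNReal.ofReal_rpow_of_nonneg (by positivity) hγ.le,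
            ENNReal.ofReal_rpow_of_nonneg (norm_nonneg _) hγ.le]
          ring
        simp_rw [hpt]
        rw [lintegral_const_mul _ (hd.enorm.pow_const γ), ENNReal.ofReal_mul hγ.le]
        ring

end Pool.Agent.TH340.LI
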